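import Pool.Agent.Results.MP_f1799f_co.EdgesPlusCodegrees
import Pool.Agent.H122R2.K5.Lower4

/-!
# Turán's `(3,4)`-problem for 3-graphs without codegrees between `n/3` and `2n/3`

All codegrees of Turán's 3-graph on `n = 3 m` vertices are `n/3` or `2n/3 - 1`.  For a
`K_4^3`-free 3-graph `H` on `n` vertices with codegrees `d(p)` (`p` a pair of vertices) we show

* `|H| + (6 n)⁻¹ ∑ (d(p) - n/3) (d(p) - 2n/3) ≤ (5/54) n³ - n²/54`, the sum over all pairs,
* `|H| + (6 n - 3)⁻¹ ∑ (d(p) - n/3) (d(p) - (2n/3 - 1)) ≤ (5/54) n³ + n²/(18 (2 n - 1))`.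

Only the pairs with `n/3 < d(p) < 2n/3` (respectively `2n/3 - 1`) make a negative contribution to
the sums. So Turán's bound holds for all `K_4^3`-free 3-graphs without codegrees strictly between
`n/3` and `2n/3` (respectively `2n/3 - 1`; this class contains Turán's 3-graph), and a
`K_4^3`-free 3-graph with `(5/54 + ε) n³` edges has at least `216 ε n²` pairs of vertices with
codegree strictly between `n/3` and `2n/3`.
-/

set_option autoImplicit false
open Finset

namespace Pool.Agent.Results.MP_f1799f_co.CodegreeGap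

/-- No four vertices span all four triples. -/
def K43Free {n : ℕ} (H : Finset (Finset (Fin n))) : Prop :=
  ∀ S : Finset (Fin n), S.card = 4 → ∃ s ⊆ S, s.card = 3 ∧ s ∉ H

/-- The codegree of a pair `p` of vertices: the number of edges containing `p`. -/
def codegree {n : ℕ} (H : Finset (Finset (Fin n))) (p : Finset (Fin n)) : ℕ :=
  (H.filter fun s => p ⊆ s).card

/-- The set of the pairs of vertices. -/
def pairs (n : ℕ) : Finset (Finset (Fin n)) := (Finset.univ : Finset (Fin n)).powersetCard 2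

theorem sum_codegree {n : ℕ} {H : Finset (Finset (Fin n))} (h3 : ∀ s ∈ H, s.card = 3) :
    ∑ p ∈ pairs n, codegree H p = 3 * H.card := by
  unfold codegree
  simp only [card_filter]
  rw [sum_comm]
  have h : ∀ s ∈ H, (∑ p ∈ pairs n, if p ⊆ s then 1 else 0) = 3 := by
    intro s hs
    rw [← card_filter]
    have : (pairs n).filter (fun p => p ⊆ s) = s.powersetCard 2 := by
      unfold pairs
      ext p
      simp only [mem_filter, mem_powersetCard, subset_univ, true_and]
      tauto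
    rw [this, card_powersetCard, h3 s hs]
    rfl
  rw [sum_congr rfl h, sum_const, smul_eq_mul, mul_comm]

theorem card_pairs (n : ℕ) : ((pairs n).card : ℝ) = n * (n - 1) / 2 := by
  unfold pairs
  rw [card_powersetCard, card_univ, Fintype.card_fin, Nat.cast_choose_two]

/-- The two master inequalities, for the quadratic polynomial with the zeros `a` and `b`. -/
theorem master {n : ℕ} {H : Finset (Finset (Fin n))} (h3 : ∀ s ∈ H, s.card = 3)
    (hK : K43Free H) (a b : ℝ) :
    3 * ((n : ℝ) + a + b) * (H.card : ℝ) + ∑ p ∈ pairs n, ((codegree H p : ℝ) - a) * (codegree H p - b) ≤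
      4 / 9 * (n : ℝ) ^ 4 + a * b * ((n : ℝ) * (n - 1) / 2) := by
  have h1 := EdgesPlusCodegrees.result n H h3 hK
  have h2 : (∑ p ∈ pairs n, (codegree H p : ℝ)) = 3 * (H.card : ℝ) := by
    exact_mod_cast sum_codegree h3
  have h4 : ∑ p ∈ pairs n, ((codegree H p : ℝ) - a) * (codegree H p - b) =
      ∑ p ∈ pairs n, (codegree H p : ℝ) ^ 2 - (a + b) * ∑ p ∈ pairs n, (codegree H p : ℝ) +
        (pairs n).card * (a * b) := by
    rw [mul_sum, ← nsmul_eq_mul, ← sum_const, ← sum_sub_distrib, ← sum_add_distrib]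
    exact sum_congr rfl fun p _ => by ring
  have h5 : ∑ p ∈ pairs n, (codegree H p : ℝ) ^ 2 =
    ∑ p ∈ (Finset.univ : Finset (Fin n)).powersetCard 2, (EdgesPlusCodegrees.codeg H p : ℝ) ^ 2 := rfl
  rw [h4, h2, card_pairs, h5]
  linarith

section Turan
open Pool.Agent.H122R2.K5
open scoped Classical

theorem mem_tur_iff {n : ℕ} (P : Finset (Fin n)) (hP : P.card = 2) (c : Fin n) (hc : c ∉ P) :
    insert c P ∈ tur n ↔ Al (cnt 0 P + (if c.val % 3 = 0 then 1 else 0))
      (cnt 1 P + (if c.val % 3 = 1 then 1 else 0)) (cnt 2 P + (if c.val % 3 = 2 then 1 else 0)) := by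
  refine ⟨fun h => ?_, fun h => ins_mem P hP c hc h⟩
  unfold tur at h
  rw [mem_filter] at h
  have h2 := h.2
  rwa [cnt_insert 0 P c hc, cnt_insert 1 P c hc, cnt_insert 2 P c hc] at h2

theorem cdg_le {n : ℕ} (G : Finset (Finset (Fin n))) (h3 : ∀ s ∈ G, s.card = 3)
    (P T : Finset (Fin n)) (hP : P.card = 2)
    (h : ∀ c, c ∉ P → insert c P ∈ G → c ∈ T) : cdg G P ≤ T.card := by
  have h1 : G.filter (P ⊆ ·) ⊆ T.image fun c => insert c P := by
    intro s hs
    rw [mem_filter] at hs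
    have hc : (s \ P).card = 1 := by
      rw [card_sdiff_of_subset hs.2, h3 s hs.1, hP]
    obtain ⟨c, hc⟩ := card_eq_one.mp hc
    have hcs : insert c P = s := by
      rw [insert_eq, ← hc, sdiff_union_of_subset hs.2]
    have hcP : c ∉ P := by
      have : c ∈ s \ P := by rw [hc]; exact mem_singleton_self c
      exact (mem_sdiff.mp this).2
    exact mem_image.mpr ⟨c, h c hcP (by rw [hcs]; exact hs.1), hcs⟩
  exact (card_le_card h1).trans card_image_le

theorem part_cases {n : ℕ} (P : Finset (Fin n)) (hP : P.card = 2) :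
    (cnt 0 P = 2 ∨ cnt 1 P = 2 ∨ cnt 2 P = 2) ∨
      ((cnt 0 P = 1 ∧ cnt 1 P = 1) ∨ (cnt 1 P = 1 ∧ cnt 2 P = 1) ∨ (cnt 2 P = 1 ∧ cnt 0 P = 1)) := by
  have := cnt_sum P
  rw [hP] at this
  omega

theorem inner_le (m k l : ℕ) (hk : k < 3) (P : Finset (Fin (3 * m))) (hP : P.card = 2)
    (h0 : cnt k P = 2)
    (hkl : (k = 0 ∧ l = 1) ∨ (k = 1 ∧ l = 2) ∨ (k = 2 ∧ l = 0)) : cdg (tur (3 * m)) P ≤ m := by
  have hs := cnt_sum P
  rw [hP] at hs
  have hl : l < 3 := by omega
  have hcl : cnt l P = 0 := by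
    rcases hkl with ⟨rfl, rfl⟩ | ⟨rfl, rfl⟩ | ⟨rfl, rfl⟩ <;> omega
  have hc := card_diff m l hl P
  rw [hcl, Nat.sub_zero] at hc
  refine (cdg_le _ (tur_card _) P (Pt l \ P) hP ?_).trans hc.le
  intro c hcP hct
  rw [mem_tur_iff P hP c hcP] at hct
  refine mem_sdiff.mpr ⟨mem_filter.mpr ⟨mem_univ _, ?_⟩, hcP⟩
  have h3 : c.val % 3 = 0 ∨ c.val % 3 = 1 ∨ c.val % 3 = 2 := by omega
  unfold Al at hct
  rcases hkl with ⟨rfl, rfl⟩ | ⟨rfl, rfl⟩ | ⟨rfl, rfl⟩ <;> rcases h3 with h | h | h <;>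
    simp only [h] at hct ⊢ <;> norm_num at hct <;> omega

theorem cross_le (m k l r : ℕ) (hk : k < 3) (hr : r < 3) (P : Finset (Fin (3 * m)))
    (hP : P.card = 2) (hm : 1 ≤ m) (h0 : cnt k P = 1) (h1 : cnt l P = 1)
    (hkl : (k = 0 ∧ l = 1 ∧ r = 2) ∨ (k = 1 ∧ l = 2 ∧ r = 0) ∨ (k = 2 ∧ l = 0 ∧ r = 1)) :
    cdg (tur (3 * m)) P ≤ 2 * m - 1 := by
  have hs := cnt_sum P
  rw [hP] at hs
  have hcr : cnt r P = 0 := by
    rcases hkl with ⟨rfl, rfl, rfl⟩ | ⟨rfl, rfl, rfl⟩ | ⟨rfl, rfl, rfl⟩ <;> omega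
  have hc1 := card_diff m k hk P
  have hc2 := card_diff m r hr P
  rw [hcr, Nat.sub_zero] at hc2
  rw [h0] at hc1
  have hne : k ≠ r := by
    rcases hkl with ⟨rfl, rfl, rfl⟩ | ⟨rfl, rfl, rfl⟩ | ⟨rfl, rfl, rfl⟩ <;> omega
  have hc : ((Pt k \ P) ∪ (Pt r \ P)).card = 2 * m - 1 := by
    rw [card_union_of_disjoint (disj_Pt P k r hne), hc1, hc2]
    omega
  refine (cdg_le _ (tur_card _) P ((Pt k \ P) ∪ (Pt r \ P)) hP ?_).trans hc.le
  intro c hcP hct
  rw [mem_tur_iff P hP c hcP] at hct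
  have h3 : c.val % 3 = 0 ∨ c.val % 3 = 1 ∨ c.val % 3 = 2 := by omega
  unfold Al at hct
  have hgoal : c.val % 3 = k ∨ c.val % 3 = r := by
    rcases hkl with ⟨rfl, rfl, rfl⟩ | ⟨rfl, rfl, rfl⟩ | ⟨rfl, rfl, rfl⟩ <;>
      rcases h3 with h | h | h <;> simp only [h] at hct ⊢ <;> norm_num at hct ⊢ <;> omega
  rcases hgoal with h | h
  · exact mem_union_left _ (mem_sdiff.mpr ⟨mem_filter.mpr ⟨mem_univ _, h⟩, hcP⟩)
  · exact mem_union_right _ (mem_sdiff.mpr ⟨mem_filter.mpr ⟨mem_univ _, h⟩, hcP⟩)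

theorem cdg_inner (m : ℕ) (P : Finset (Fin (3 * m))) (hP : P.card = 2)
    (h : cnt 0 P = 2 ∨ cnt 1 P = 2 ∨ cnt 2 P = 2) : cdg (tur (3 * m)) P = m := by
  rcases h with h | h | h
  · exact le_antisymm (inner_le m 0 1 (by norm_num) P hP h (by omega))
      (inner m 0 1 (by norm_num) P hP h (by omega))
  · exact le_antisymm (inner_le m 1 2 (by norm_num) P hP h (by omega))
      (inner m 1 2 (by norm_num) P hP h (by omega))
  · exact le_antisymm (inner_le m 2 0 (by norm_num) P hP h (by omega))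
      (inner m 2 0 (by norm_num) P hP h (by omega))

theorem cdg_cross (m : ℕ) (hm : 1 ≤ m) (P : Finset (Fin (3 * m))) (hP : P.card = 2)
    (h : (cnt 0 P = 1 ∧ cnt 1 P = 1) ∨ (cnt 1 P = 1 ∧ cnt 2 P = 1) ∨ (cnt 2 P = 1 ∧ cnt 0 P = 1)) :
    cdg (tur (3 * m)) P = 2 * m - 1 := by
  rcases h with ⟨a, b⟩ | ⟨a, b⟩ | ⟨a, b⟩
  · exact le_antisymm (cross_le m 0 1 2 (by norm_num) (by norm_num) P hP hm a b (by omega))
      (cross m 0 1 2 (by norm_num) (by norm_num) P hP hm a b (by omega))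
  · exact le_antisymm (cross_le m 1 2 0 (by norm_num) (by norm_num) P hP hm a b (by omega))
      (cross m 1 2 0 (by norm_num) (by norm_num) P hP hm a b (by omega))
  · exact le_antisymm (cross_le m 2 0 1 (by norm_num) (by norm_num) P hP hm a b (by omega))
      (cross m 2 0 1 (by norm_num) (by norm_num) P hP hm a b (by omega))

theorem cdg_eq {n : ℕ} (H : Finset (Finset (Fin n))) (P : Finset (Fin n)) :
    codegree H P = cdg H P := by
  unfold codegree cdg
  congr!

theorem card_inner (m : ℕ) :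
    ((pairs (3 * m)).filter fun P => cnt 0 P = 2 ∨ cnt 1 P = 2 ∨ cnt 2 P = 2).card =
      3 * m.choose 2 := by
  have hsub : ∀ (k : ℕ) (P : Finset (Fin (3 * m))), P.card = 2 → (cnt k P = 2 ↔ P ⊆ Pt k) := by
    intro k P hP
    constructor
    · intro h
      unfold cnt at h
      have h1 : P.filter (fun i => i.val % 3 = k) = P :=
        eq_of_subset_of_card_le (filter_subset _ _) (by omega)
      intro x hx
      rw [← h1] at hx
      exact mem_filter.mpr ⟨mem_univ _, (mem_filter.mp hx).2⟩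
    · intro h
      unfold cnt
      rw [filter_true_of_mem, hP]
      intro x hx
      exact (mem_filter.mp (h hx)).2
  have heq : ((pairs (3 * m)).filter fun P => cnt 0 P = 2 ∨ cnt 1 P = 2 ∨ cnt 2 P = 2) =
      ((Pt 0).powersetCard 2 ∪ (Pt 1).powersetCard 2) ∪ (Pt 2).powersetCard 2 := by
    unfold pairs
    ext P
    simp only [mem_filter, mem_union, mem_powersetCard, subset_univ, true_and]
    constructor
    · rintro ⟨hP, h | h | h⟩
      · exact Or.inl (Or.inl ⟨(hsub 0 P hP).mp h, hP⟩)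
      · exact Or.inl (Or.inr ⟨(hsub 1 P hP).mp h, hP⟩)
      · exact Or.inr ⟨(hsub 2 P hP).mp h, hP⟩
    · rintro ((⟨h, hP⟩ | ⟨h, hP⟩) | ⟨h, hP⟩)
      · exact ⟨hP, Or.inl ((hsub 0 P hP).mpr h)⟩
      · exact ⟨hP, Or.inr (Or.inl ((hsub 1 P hP).mpr h))⟩
      · exact ⟨hP, Or.inr (Or.inr ((hsub 2 P hP).mpr h))⟩
  have hdis : ∀ j k : ℕ, j ≠ k → Disjoint ((Pt (n := 3 * m) j).powersetCard 2)
      ((Pt (n := 3 * m) k).powersetCard 2) := by
    intro j k hjk
    rw [disjoint_left]
    intro P h1 h2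
    rw [mem_powersetCard] at h1 h2
    obtain ⟨x, hx⟩ := card_pos.mp (by rw [h1.2]; norm_num : 0 < P.card)
    exact hjk ((mem_filter.mp (h1.1 hx)).2.symm.trans (mem_filter.mp (h2.1 hx)).2)
  rw [heq, card_union_of_disjoint, card_union_of_disjoint (hdis 0 1 (by norm_num)),
    card_powersetCard, card_powersetCard, card_powersetCard, card_Pt m 0 (by norm_num),
    card_Pt m 1 (by norm_num), card_Pt m 2 (by norm_num)]
  · ring
  · exact disjoint_union_left.mpr ⟨hdis 0 2 (by norm_num), hdis 1 2 (by norm_num)⟩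

theorem tur_edge_count (m : ℕ) (hm : 1 ≤ m) :
    2 * ((tur (3 * m)).card : ℝ) = (m : ℝ) ^ 2 * (5 * m - 3) := by
  have h1 := sum_codegree (tur_card (3 * m))
  rw [← sum_filter_add_sum_filter_not (pairs (3 * m))
    (fun P => cnt 0 P = 2 ∨ cnt 1 P = 2 ∨ cnt 2 P = 2)] at h1
  have h2 : ∑ P ∈ (pairs (3 * m)).filter (fun P => cnt 0 P = 2 ∨ cnt 1 P = 2 ∨ cnt 2 P = 2),
      codegree (tur (3 * m)) P = 3 * m.choose 2 * m := by
    rw [← card_inner m]
    refine sum_const_nat fun P hP => ?_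
    rw [mem_filter] at hP
    rw [cdg_eq]
    exact cdg_inner m P (mem_powersetCard.mp hP.1).2 hP.2
  have h3 : ∑ P ∈ (pairs (3 * m)).filter (fun P => ¬ (cnt 0 P = 2 ∨ cnt 1 P = 2 ∨ cnt 2 P = 2)),
      codegree (tur (3 * m)) P =
      ((pairs (3 * m)).filter (fun P => ¬ (cnt 0 P = 2 ∨ cnt 1 P = 2 ∨ cnt 2 P = 2))).card *
        (2 * m - 1) := by
    refine sum_const_nat fun P hP => ?_
    rw [mem_filter] at hP
    have hP2 := (mem_powersetCard.mp hP.1).2
    rw [cdg_eq]
    refine cdg_cross m hm P hP2 ?_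
    rcases part_cases P hP2 with h | h
    · exact absurd h hP.2
    · exact h
  have h4 := card_filter_add_card_filter_not (s := pairs (3 * m))
    (fun P => cnt 0 P = 2 ∨ cnt 1 P = 2 ∨ cnt 2 P = 2)
  rw [card_inner] at h4
  rw [h2, h3] at h1
  have h5 := card_pairs (3 * m)
  generalize ((pairs (3 * m)).filter
    (fun P => ¬ (cnt 0 P = 2 ∨ cnt 1 P = 2 ∨ cnt 2 P = 2))).card = x at h1 h4
  have h4' : (3 : ℝ) * (m.choose 2 : ℕ) + x = (pairs (3 * m)).card := by exact_mod_cast h4
  rw [h5, Nat.cast_choose_two] at h4'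
  have h1' : (3 : ℝ) * (m.choose 2 : ℕ) * m + x * ((2 * m - 1 : ℕ) : ℝ) =
      3 * ((tur (3 * m)).card : ℝ) := by exact_mod_cast h1
  rw [Nat.cast_choose_two, Nat.cast_sub (by omega)] at h1'
  push_cast at h1' h4'
  have hx : (x : ℝ) = 3 * m * (3 * m - 1) / 2 - 3 * (m * (m - 1) / 2) := by linarith
  rw [hx] at h1'
  nlinarith [h1']

end Turan

/-- Let `H` be a `K_4^3`-free 3-graph on `n ≥ 1` vertices. (1), (2): the two inequalities with all
codegrees. (3), (4): Turán's bound holds if no codegree lies strictly between `n/3` and `2n/3`, or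
strictly between `n/3` and `2n/3 - 1`. (5): if `|H| ≥ (5/54 + ε) n³`, at least `216 ε n²` pairs
have a codegree strictly between `n/3` and `2n/3`. (6): for every `m ≥ 1` there is a
`K_4^3`-free 3-graph on `3 m` vertices with `m² (5 m - 3) / 2` edges all of whose codegrees are
`m` or `2 m - 1`. -/
theorem result :
    (∀ (n : ℕ) (H : Finset (Finset (Fin n))), 1 ≤ n → (∀ s ∈ H, s.card = 3) → K43Free H →
      (H.card + 1 / (6 * (n : ℝ)) * ∑ p ∈ pairs n,
          ((codegree H p : ℝ) - n / 3) * (codegree H p - 2 * n / 3) ≤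
        5 / 54 * (n : ℝ) ^ 3 - (n : ℝ) ^ 2 / 54) ∧
      (H.card + 1 / (6 * (n : ℝ) - 3) * ∑ p ∈ pairs n,
          ((codegree H p : ℝ) - n / 3) * (codegree H p - (2 * n / 3 - 1)) ≤
        5 / 54 * (n : ℝ) ^ 3 + (n : ℝ) ^ 2 / (18 * (2 * n - 1))) ∧
      ((∀ p ∈ pairs n, ¬ ((n : ℝ) / 3 < codegree H p ∧ (codegree H p : ℝ) < 2 * n / 3)) →
        (H.card : ℝ) ≤ 5 / 54 * (n : ℝ) ^ 3 - (n : ℝ) ^ 2 / 54) ∧
      ((∀ p ∈ pairs n, ¬ ((n : ℝ) / 3 < codegree H p ∧ (codegree H p : ℝ) < 2 * n / 3 - 1)) →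
        (H.card : ℝ) ≤ 5 / 54 * (n : ℝ) ^ 3 + (n : ℝ) ^ 2 / (18 * (2 * n - 1))) ∧
      (∀ ε : ℝ, (5 / 54 + ε) * (n : ℝ) ^ 3 ≤ H.card →
        216 * ε * (n : ℝ) ^ 2 ≤ ((pairs n).filter fun p =>
          (n : ℝ) / 3 < codegree H p ∧ (codegree H p : ℝ) < 2 * n / 3).card)) ∧
    (∀ m : ℕ, 1 ≤ m → ∃ H : Finset (Finset (Fin (3 * m))), (∀ s ∈ H, s.card = 3) ∧ K43Free H ∧
      (∀ p ∈ pairs (3 * m), codegree H p = m ∨ codegree H p = 2 * m - 1) ∧
      (H.card : ℝ) = (m : ℝ) ^ 2 * (5 * m - 3) / 2) := by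
  classical
  refine ⟨?_, ?_⟩
  · intro n H hn h3 hK
    have hn1 : (1 : ℝ) ≤ n := by exact_mod_cast hn
    have hn0 : (0 : ℝ) < n := by linarith
    have hA := master h3 hK (n / 3) (2 * n / 3)
    have hB := master h3 hK (n / 3) (2 * n / 3 - 1)
    have h6 : (0 : ℝ) < 6 * n := by linarith
    have h63 : (0 : ℝ) < 6 * n - 3 := by linarith
    have h21 : (0 : ℝ) < 2 * (n : ℝ) - 1 := by linarith
    have e1 : (H.card + 1 / (6 * (n : ℝ)) * ∑ p ∈ pairs n,
          ((codegree H p : ℝ) - n / 3) * (codegree H p - 2 * n / 3) ≤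
        5 / 54 * (n : ℝ) ^ 3 - (n : ℝ) ^ 2 / 54) := by
      refine le_of_mul_le_mul_left ?_ h6
      have e : 6 * (n : ℝ) * (H.card + 1 / (6 * (n : ℝ)) * ∑ p ∈ pairs n,
          ((codegree H p : ℝ) - n / 3) * (codegree H p - 2 * n / 3)) =
          6 * n * H.card + ∑ p ∈ pairs n,
          ((codegree H p : ℝ) - n / 3) * (codegree H p - 2 * n / 3) := by
        rw [mul_add, ← mul_assoc, mul_one_div_cancel h6.ne', one_mul]
      rw [e]
      linarith
    have e2 : (H.card + 1 / (6 * (n : ℝ) - 3) * ∑ p ∈ pairs n,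
          ((codegree H p : ℝ) - n / 3) * (codegree H p - (2 * n / 3 - 1)) ≤
        5 / 54 * (n : ℝ) ^ 3 + (n : ℝ) ^ 2 / (18 * (2 * n - 1))) := by
      refine le_of_mul_le_mul_left ?_ h63
      have e : (6 * (n : ℝ) - 3) * (H.card + 1 / (6 * (n : ℝ) - 3) * ∑ p ∈ pairs n,
          ((codegree H p : ℝ) - n / 3) * (codegree H p - (2 * n / 3 - 1))) =
          (6 * n - 3) * H.card + ∑ p ∈ pairs n,
          ((codegree H p : ℝ) - n / 3) * (codegree H p - (2 * n / 3 - 1)) := by
        rw [mul_add, ← mul_assoc, mul_one_div_cancel h63.ne', one_mul]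
      have e' : (6 * (n : ℝ) - 3) * (5 / 54 * (n : ℝ) ^ 3 + (n : ℝ) ^ 2 / (18 * (2 * n - 1))) =
          (6 * n - 3) * (5 / 54 * (n : ℝ) ^ 3) + (n : ℝ) ^ 2 / 6 := by
        have e3 : (n : ℝ) ^ 2 / (18 * (2 * n - 1)) = (n : ℝ) ^ 2 / 6 / (6 * n - 3) := by
          rw [div_div]
          congr 1
          ring
        rw [e3, mul_add, mul_div_cancel₀ _ h63.ne']
      rw [e, e']
      linarith
    refine ⟨e1, e2, ?_, ?_, ?_⟩
    · intro hgap
      have hs : 0 ≤ ∑ p ∈ pairs n, ((codegree H p : ℝ) - n / 3) * (codegree H p - 2 * n / 3) := by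
        refine sum_nonneg fun p hp => ?_
        have hp' := hgap p hp
        by_cases h : (n : ℝ) / 3 < codegree H p
        · have h' : 2 * (n : ℝ) / 3 ≤ codegree H p := by
            by_contra hc
            exact hp' ⟨h, not_le.mp hc⟩
          exact mul_nonneg (by linarith) (by linarith)
        · exact mul_nonneg_of_nonpos_of_nonpos (by linarith) (by linarith)
      have : 0 ≤ 1 / (6 * (n : ℝ)) * ∑ p ∈ pairs n,
          ((codegree H p : ℝ) - n / 3) * (codegree H p - 2 * n / 3) := by positivity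
      linarith
    · intro hgap
      rcases Nat.lt_or_ge n 2 with hn2 | hn2
      · have hn1' : n = 1 := by omega
        subst hn1'
        have hc : H.card = 0 := by
          rw [card_eq_zero]
          by_contra hne
          obtain ⟨s, hs⟩ := nonempty_iff_ne_empty.mpr hne
          have := card_le_univ s
          rw [h3 s hs, Fintype.card_fin] at this
          omega
        rw [hc]
        norm_num
      have hs : 0 ≤ ∑ p ∈ pairs n, ((codegree H p : ℝ) - n / 3) *
          (codegree H p - (2 * n / 3 - 1)) := by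
        refine sum_nonneg fun p hp => ?_
        have hp' := hgap p hp
        by_cases h : (n : ℝ) / 3 < codegree H p
        · have h' : 2 * (n : ℝ) / 3 - 1 ≤ codegree H p := by
            by_contra hc
            exact hp' ⟨h, not_le.mp hc⟩
          exact mul_nonneg (by linarith) (by linarith)
        · rcases Nat.lt_or_ge n 3 with hn3 | hn3
          · have hn2' : n = 2 := by omega
            subst hn2'
            have hc : codegree H p = 0 := by
              unfold codegree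
              rw [card_eq_zero, filter_eq_empty_iff]
              intro s hs
              have := card_le_univ s
              rw [h3 s hs, Fintype.card_fin] at this
              omega
            rw [hc] at *
            have := hp'
            norm_num
          · have hn3' : (3 : ℝ) ≤ n := by exact_mod_cast hn3
            exact mul_nonneg_of_nonpos_of_nonpos (by linarith) (by linarith)
      have : 0 ≤ 1 / (6 * (n : ℝ) - 3) * ∑ p ∈ pairs n,
          ((codegree H p : ℝ) - n / 3) * (codegree H p - (2 * n / 3 - 1)) :=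
        mul_nonneg (by positivity) hs
      linarith
    · intro ε hε
      set Q : Finset (Fin n) → Prop := fun p =>
        (n : ℝ) / 3 < codegree H p ∧ (codegree H p : ℝ) < 2 * n / 3 with hQ
      have hs : -(((pairs n).filter Q).card * ((n : ℝ) ^ 2 / 36)) ≤
          ∑ p ∈ pairs n, ((codegree H p : ℝ) - n / 3) * (codegree H p - 2 * n / 3) := by
        rw [← sum_filter_add_sum_filter_not (pairs n) Q]
        have g1 : -(((pairs n).filter Q).card * ((n : ℝ) ^ 2 / 36)) ≤
            ∑ p ∈ (pairs n).filter Q, ((codegree H p : ℝ) - n / 3) * (codegree H p - 2 * n / 3) := by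
          rw [← nsmul_eq_mul, ← sum_const, ← sum_neg_distrib]
          refine sum_le_sum fun p _ => ?_
          nlinarith [sq_nonneg ((codegree H p : ℝ) - n / 2)]
        have g2 : 0 ≤ ∑ p ∈ (pairs n).filter (fun p => ¬ Q p),
            ((codegree H p : ℝ) - n / 3) * (codegree H p - 2 * n / 3) := by
          refine sum_nonneg fun p hp => ?_
          have hp' := (mem_filter.mp hp).2
          by_cases h : (n : ℝ) / 3 < codegree H p
          · have h' : 2 * (n : ℝ) / 3 ≤ codegree H p := by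
              by_contra hc
              exact hp' ⟨h, not_le.mp hc⟩
            exact mul_nonneg (by linarith) (by linarith)
          · exact mul_nonneg_of_nonpos_of_nonpos (by linarith) (by linarith)
        linarith
      have h7 : 6 * (n : ℝ) * (ε * (n : ℝ) ^ 3) ≤ ((pairs n).filter Q).card * ((n : ℝ) ^ 2 / 36) := by
        have h8 := mul_le_mul_of_nonneg_left hε h6.le
        have h9 := mul_le_mul_of_nonneg_left e1 h6.le
        have h10 : 6 * (n : ℝ) * (H.card + 1 / (6 * (n : ℝ)) * ∑ p ∈ pairs n,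
            ((codegree H p : ℝ) - n / 3) * (codegree H p - 2 * n / 3)) =
            6 * n * H.card + ∑ p ∈ pairs n,
            ((codegree H p : ℝ) - n / 3) * (codegree H p - 2 * n / 3) := by
          rw [mul_add, ← mul_assoc, mul_one_div_cancel h6.ne', one_mul]
        rw [h10] at h9
        have h11 : 0 ≤ (n : ℝ) ^ 3 := by positivity
        nlinarith [h8, h9, hs, h11]
      have hn2 : 0 < (n : ℝ) ^ 2 / 36 := by positivity
      refine le_of_mul_le_mul_right ?_ hn2
      calc 216 * ε * (n : ℝ) ^ 2 * ((n : ℝ) ^ 2 / 36) = 6 * (n : ℝ) * (ε * (n : ℝ) ^ 3) := by ring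
        _ ≤ _ := h7
  · intro m hm
    refine ⟨Pool.Agent.H122R2.K5.tur (3 * m), Pool.Agent.H122R2.K5.tur_card _,
      fun S hS => Pool.Agent.H122R2.K5.tur_free _ S hS, ?_, ?_⟩
    · intro p hp
      have hp2 := (mem_powersetCard.mp hp).2
      rw [cdg_eq]
      rcases part_cases p hp2 with h | h
      · exact Or.inl (cdg_inner m p hp2 h)
      · exact Or.inr (cdg_cross m hm p hp2 h)
    · have := tur_edge_count m hm
      linarith

end Pool.Agent.Results.MP_f1799f_co.CodegreeGap
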