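import Pool.Agent.X45.Abs.T1Check
import Pool.Agent.X45.Abs.T3Check
import Pool.Agent.Y439.Col.Tri

/-!
# The Turán density of `K_4^3`: 3-graphs with an independent set of about half of the vertices
-/

set_option autoImplicit false

open Finset

namespace Pool.Agent.Results.MP_f1799f_co.IndependentHalf

/-- `H` is a 3-graph on `V`: a set of three-element sets of vertices. -/
def ThreeGraph {V : Type} (H : Finset (Finset V)) : Prop := ∀ e ∈ H, e.card = 3

/-- No four vertices span all four triples. -/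
def K43Free {V : Type} (H : Finset (Finset V)) : Prop :=
  ∀ S : Finset V, S.card = 4 → ∃ e ⊆ S, e.card = 3 ∧ e ∉ H

/-- The set `A` contains no edge of `H`. -/
def Indep {V : Type} (H : Finset (Finset V)) (A : Finset V) : Prop := ∀ e ∈ H, ¬ e ⊆ A

variable {V : Type} [Fintype V] [DecidableEq V]

omit [DecidableEq V] in
theorem sum_first (f : V → ℕ) :
    ∑ x : Fin 5 → V, f (x 0) = Fintype.card V ^ 4 * ∑ a, f a := by
  rw [Pool.Agent.Y439.Col.sum_five (fun a _ _ _ _ => f a)]
  simp only [sum_const, card_univ, smul_eq_mul, mul_sum]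
  refine sum_congr rfl fun a _ => ?_
  ring

omit [DecidableEq V] in
theorem sum_colour (c : V → ℕ) (k : ℕ) (e : V → V → V → ℕ)
    (pt : Pool.Agent.Y439.Col.Pat)
    (hpt : ∀ C0 C1 C2 C3 C4 b0 b1 b2 b3 b4 b5 b6 b7 b8 b9 : ℕ,
      pt C0 C1 C2 C3 C4 b0 b1 b2 b3 b4 b5 b6 b7 b8 b9 = bif Nat.beq C0 k then 1 else 0) :
    ∑ x : Fin 5 → V, Pool.Agent.Y439.Col.pg pt c e (x 0) (x 1) (x 2) (x 3) (x 4) =
      Fintype.card V ^ 4 * (univ.filter fun a => c a = k).card := by
  have h1 : ∀ x : Fin 5 → V, Pool.Agent.Y439.Col.pg pt c e (x 0) (x 1) (x 2) (x 3) (x 4) =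
      (fun a : V => if c a = k then 1 else 0) (x 0) := by
    intro x
    unfold Pool.Agent.Y439.Col.pg
    rw [hpt]
    by_cases h : c (x 0) = k
    · have : Nat.beq (c (x 0)) k = true := by rw [h]; exact Nat.beq_refl k
      rw [this]
      simp [h]
    · have : Nat.beq (c (x 0)) k = false := by
        rcases hb : Nat.beq (c (x 0)) k with _ | _
        · rfl
        · exact absurd (Nat.eq_of_beq_eq_true hb) h
      rw [this]
      simp [h]
  rw [sum_congr rfl fun x _ => h1 x, sum_first (fun a : V => if c a = k then 1 else 0),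
    card_filter]

/-- One independent set. -/
theorem one_le (H : Finset (Finset V)) (h3 : ThreeGraph H) (hK : K43Free H) (A : Finset V)
    (hA : Indep H A) :
    6000000 * H.card * Fintype.card V ^ 2 ≤ 478938 * Fintype.card V ^ 5 +
      157000 * Fintype.card V ^ 4 * Aᶜ.card := by
  classical
  set c : V → ℕ := fun x => if x ∈ A then 0 else 1 with hc
  have hc2 : ∀ x, c x < 2 := by
    intro x
    simp only [hc]
    split_ifs <;> norm_num
  have hin : ∀ x y z, Pool.Agent.X45.Abs.T1.ind (c x) = true → c x = c y → c y = c z →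
      Pool.Agent.Y439.Col.tri H x y z = 0 := by
    intro x y z h0 h1 h2
    have e0 : c x = 0 := Nat.eq_of_beq_eq_true h0
    have mem : ∀ w, c w = 0 → w ∈ A := by
      intro w hw
      by_contra hcon
      simp only [hc, if_neg hcon] at hw
      exact absurd hw (by norm_num)
    rw [Pool.Agent.Y439.Col.tri_eq_zero]
    intro hm
    apply hA _ hm
    intro t ht
    simp only [mem_insert, mem_singleton] at ht
    rcases ht with rfl | rfl | rfl
    · exact mem _ e0
    · exact mem _ (h1 ▸ e0)
    · exact mem _ (h2 ▸ h1 ▸ e0)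
  have h := Pool.Agent.X45.Abs.T1.final c hc2 (Pool.Agent.Y439.Col.tri H)
    (Pool.Agent.Y439.Col.tri_le H) (Pool.Agent.Y439.Col.tri_s1 H) (Pool.Agent.Y439.Col.tri_s2 H)
    hin (Pool.Agent.Y439.Col.tri_k4 h3 hK)
  rw [sum_colour c 1 _ Pool.Agent.X45.Abs.T1.pt (fun _ _ _ _ _ _ _ _ _ _ _ _ _ _ _ => rfl)] at h
  have hcc : (univ.filter fun a => c a = 1) = Aᶜ := by
    ext x
    simp only [mem_filter, mem_univ, true_and, mem_compl, hc]
    by_cases hx : x ∈ A <;> simp [hx]
  rw [hcc] at h
  have h6 := Pool.Agent.Y439.Col.six_card_le (H := H) h3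
  have a1 : 90 * 100000000 * (Fintype.card V ^ 2 * (6 * H.card)) ≤
      90 * 100000000 * (Fintype.card V ^ 2 * ∑ a, ∑ b, ∑ d, Pool.Agent.Y439.Col.tri H a b d) :=
    Nat.mul_le_mul_left _ (Nat.mul_le_mul_left _ h6)
  have a2 := a1.trans h
  have e2 : 90 * 100000000 * (Fintype.card V ^ 2 * (6 * H.card)) =
      9000 * (6000000 * H.card * Fintype.card V ^ 2) := by ring
  have e3 : 4310442000 * Fintype.card V ^ 5 +
      120 * 11775000 * (Fintype.card V ^ 4 * Aᶜ.card) = 9000 * (478938 * Fintype.card V ^ 5 +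
      157000 * Fintype.card V ^ 4 * Aᶜ.card) := by ring
  rw [e2, e3] at a2
  omega

/-- Two disjoint independent sets. -/
theorem two_le (H : Finset (Finset V)) (h3 : ThreeGraph H) (hK : K43Free H) (A B : Finset V)
    (hAB : Disjoint A B) (hA : Indep H A) (hB : Indep H B) :
    6000000 * H.card * Fintype.card V ^ 2 ≤ 536278 * Fintype.card V ^ 5 +
      110000 * Fintype.card V ^ 4 * (A ∪ B)ᶜ.card := by
  classical
  set c : V → ℕ := fun x => if x ∈ A then 0 else if x ∈ B then 1 else 2 with hc
  have hc3 : ∀ x, c x < 3 := by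
    intro x
    simp only [hc]
    split_ifs <;> norm_num
  have mem0 : ∀ w, c w = 0 → w ∈ A := by
    intro w hw
    by_contra hcon
    simp only [hc, if_neg hcon] at hw
    split_ifs at hw <;> exact absurd hw (by norm_num)
  have mem1 : ∀ w, c w = 1 → w ∈ B := by
    intro w hw
    by_contra hcon
    simp only [hc, if_neg hcon] at hw
    split_ifs at hw <;> exact absurd hw (by norm_num)
  have hin : ∀ x y z, Pool.Agent.X45.Abs.T3.ind (c x) = true → c x = c y → c y = c z →
      Pool.Agent.Y439.Col.tri H x y z = 0 := by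
    intro x y z h0 h1 h2
    have e0 : c x = 0 ∨ c x = 1 := by
      have h0' : (Nat.beq (c x) 0 || Nat.beq (c x) 1) = true := h0
      rcases (Bool.or_eq_true _ _).mp h0' with h | h
      · exact Or.inl (Nat.eq_of_beq_eq_true h)
      · exact Or.inr (Nat.eq_of_beq_eq_true h)
    rw [Pool.Agent.Y439.Col.tri_eq_zero]
    intro hm
    rcases e0 with e0 | e0
    · apply hA _ hm
      intro t ht
      simp only [mem_insert, mem_singleton] at ht
      rcases ht with rfl | rfl | rfl
      · exact mem0 _ e0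
      · exact mem0 _ (h1 ▸ e0)
      · exact mem0 _ (h2 ▸ h1 ▸ e0)
    · apply hB _ hm
      intro t ht
      simp only [mem_insert, mem_singleton] at ht
      rcases ht with rfl | rfl | rfl
      · exact mem1 _ e0
      · exact mem1 _ (h1 ▸ e0)
      · exact mem1 _ (h2 ▸ h1 ▸ e0)
  have h := Pool.Agent.X45.Abs.T3.final c hc3 (Pool.Agent.Y439.Col.tri H)
    (Pool.Agent.Y439.Col.tri_le H) (Pool.Agent.Y439.Col.tri_s1 H) (Pool.Agent.Y439.Col.tri_s2 H)
    hin (Pool.Agent.Y439.Col.tri_k4 h3 hK)
  rw [sum_colour c 2 _ Pool.Agent.X45.Abs.T3.pt (fun _ _ _ _ _ _ _ _ _ _ _ _ _ _ _ => rfl)] at h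
  have hcc : (univ.filter fun a => c a = 2) = (A ∪ B)ᶜ := by
    ext x
    simp only [mem_filter, mem_univ, true_and, mem_compl, mem_union, hc]
    by_cases hx : x ∈ A <;> by_cases hy : x ∈ B <;> simp [hx, hy]
  rw [hcc] at h
  have h6 := Pool.Agent.Y439.Col.six_card_le (H := H) h3
  have a1 : 90 * 100000000 * (Fintype.card V ^ 2 * (6 * H.card)) ≤
      90 * 100000000 * (Fintype.card V ^ 2 * ∑ a, ∑ b, ∑ d, Pool.Agent.Y439.Col.tri H a b d) :=
    Nat.mul_le_mul_left _ (Nat.mul_le_mul_left _ h6)
  have a2 := a1.trans h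
  have e2 : 90 * 100000000 * (Fintype.card V ^ 2 * (6 * H.card)) =
      9000 * (6000000 * H.card * Fintype.card V ^ 2) := by ring
  have e3 : 4826502000 * Fintype.card V ^ 5 +
      120 * 8250000 * (Fintype.card V ^ 4 * (A ∪ B)ᶜ.card) = 9000 * (536278 * Fintype.card V ^ 5 +
      110000 * Fintype.card V ^ 4 * (A ∪ B)ᶜ.card) := by ring
  rw [e2, e3] at a2
  omega

/-- Passing to the real form. -/
theorem real_form (H : Finset (Finset V)) (h3 : ThreeGraph H) (k l : ℕ) (C : Finset V)
    (h : 6000000 * H.card * Fintype.card V ^ 2 ≤ k * Fintype.card V ^ 5 +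
      l * Fintype.card V ^ 4 * Cᶜ.card) :
    (6 * H.card : ℝ) ≤ ((k + l : ℕ) : ℝ) / 1000000 * (Fintype.card V : ℝ) ^ 3 -
      (l : ℝ) / 1000000 * C.card * (Fintype.card V : ℝ) ^ 2 := by
  rcases Nat.eq_zero_or_pos (Fintype.card V) with h0 | hpos
  · have hV : IsEmpty V := Fintype.card_eq_zero_iff.1 h0
    have : H = ∅ := by
      rw [eq_empty_iff_forall_notMem]
      intro e he
      have h1 := h3 e he
      have h2 : e = ∅ := by
        rw [eq_empty_iff_forall_notMem]
        intro x _
        exact hV.elim x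
      rw [h2] at h1
      simp at h1
    rw [this, h0]
    simp
  have hcc : C.card + Cᶜ.card = Fintype.card V := card_add_card_compl C
  have hccR : (C.card : ℝ) + Cᶜ.card = Fintype.card V := by exact_mod_cast hcc
  have hn : (0 : ℝ) < (Fintype.card V : ℝ) := by exact_mod_cast hpos
  have hR : 6000000 * (H.card : ℝ) * (Fintype.card V : ℝ) ^ 2 ≤ k * (Fintype.card V : ℝ) ^ 5 +
      l * (Fintype.card V : ℝ) ^ 4 * Cᶜ.card := by exact_mod_cast h
  have e : (Cᶜ.card : ℝ) = Fintype.card V - C.card := by linarith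
  rw [e] at hR
  have h2 : (Fintype.card V : ℝ) ^ 2 * (6 * H.card) ≤ (Fintype.card V : ℝ) ^ 2 *
      (((k + l : ℕ) : ℝ) / 1000000 * (Fintype.card V : ℝ) ^ 3 -
      (l : ℝ) / 1000000 * C.card * (Fintype.card V : ℝ) ^ 2) := by
    push_cast
    nlinarith [hR]
  exact le_of_mul_le_mul_left h2 (by positivity)

/-- The edges of `H` that are not contained in `A`. -/
def outside {V : Type} [DecidableEq V] (H : Finset (Finset V)) (A : Finset V) :
    Finset (Finset V) :=
  H.filter fun e => ¬ e ⊆ A

theorem free_of_subset {H H' : Finset (Finset V)} (hs : H' ⊆ H) (hK : K43Free H) : K43Free H' := by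
  intro S hS
  obtain ⟨T, h1, h2, h4⟩ := hK S hS
  exact ⟨T, h1, h2, fun h => h4 (hs h)⟩

/-- **Large independent sets.** Let `H` be a `K_4^3`-free 3-graph on `n` vertices. For every set
`A` of vertices the edges not contained in `A` number at most
`(0.635938 n^3 - 0.157 |A| n^2) / 6`, and for all disjoint sets `A`, `B` the edges contained
neither in `A` nor in `B` number at most `(0.646278 n^3 - 0.11 (|A| + |B|) n^2) / 6`. In
particular `|H| ≤ 5 n^3 / 54` if `H` has an independent set of at least `0.512 n` vertices, or two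
disjoint independent sets with together at least `0.825 n` vertices. -/
theorem result (V : Type) [Fintype V] [DecidableEq V] (H : Finset (Finset V))
    (h3 : ThreeGraph H) (hK : K43Free H) :
    (∀ A : Finset V,
      (6 * (outside H A).card : ℝ) ≤ 0.635938 * (Fintype.card V : ℝ) ^ 3 -
        0.157 * A.card * (Fintype.card V : ℝ) ^ 2 ∧
      (0.512 * (Fintype.card V : ℝ) ≤ A.card →
        (54 * (outside H A).card : ℝ) ≤ 5 * (Fintype.card V : ℝ) ^ 3 ∧
        (Indep H A → (54 * H.card : ℝ) ≤ 5 * (Fintype.card V : ℝ) ^ 3))) ∧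
    (∀ A B : Finset V, Disjoint A B →
      (6 * (outside (outside H A) B).card : ℝ) ≤ 0.646278 * (Fintype.card V : ℝ) ^ 3 -
        0.11 * (A.card + B.card) * (Fintype.card V : ℝ) ^ 2 ∧
      (0.825 * (Fintype.card V : ℝ) ≤ A.card + B.card →
        (54 * (outside (outside H A) B).card : ℝ) ≤ 5 * (Fintype.card V : ℝ) ^ 3 ∧
        (Indep H A → Indep H B → (54 * H.card : ℝ) ≤ 5 * (Fintype.card V : ℝ) ^ 3))) := by
  have hn : (0 : ℝ) ≤ (Fintype.card V : ℝ) := Nat.cast_nonneg _
  have hn2 : (0 : ℝ) ≤ (Fintype.card V : ℝ) ^ 2 := by positivity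
  have hn3 : (0 : ℝ) ≤ (Fintype.card V : ℝ) ^ 3 := by positivity
  have hout : ∀ (G : Finset (Finset V)) (A : Finset V), outside G A ⊆ G := fun G A =>
    filter_subset _ _
  have hid : ∀ (G : Finset (Finset V)) (A : Finset V), Indep G A → outside G A = G := by
    intro G A h
    exact filter_true_of_mem fun e he => h e he
  refine ⟨fun A => ?_, fun A B hAB => ?_⟩
  · have h1 := real_form (outside H A) (fun e he => h3 e (hout _ _ he)) 478938 157000 A
      (one_le _ (fun e he => h3 e (hout _ _ he)) (free_of_subset (hout _ _) hK) A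
        (fun e he => (mem_filter.1 he).2))
    norm_num at h1
    have h2 : (6 * (outside H A).card : ℝ) ≤ 0.635938 * (Fintype.card V : ℝ) ^ 3 -
        0.157 * A.card * (Fintype.card V : ℝ) ^ 2 := by linarith
    have h4 : 0.512 * (Fintype.card V : ℝ) ≤ A.card →
        (54 * (outside H A).card : ℝ) ≤ 5 * (Fintype.card V : ℝ) ^ 3 := by
      intro h
      have h5 := mul_le_mul_of_nonneg_right h hn2
      have e5 : 0.512 * (Fintype.card V : ℝ) * (Fintype.card V : ℝ) ^ 2 =
        0.512 * (Fintype.card V : ℝ) ^ 3 := by ring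
      rw [e5] at h5
      linarith
    refine ⟨h2, fun h => ⟨h4 h, fun hA => ?_⟩⟩
    have := h4 h
    rwa [hid H A hA] at this
  · have h1 := real_form (outside (outside H A) B)
      (fun e he => h3 e (hout _ _ (hout _ _ he))) 536278 110000 (A ∪ B)
      (two_le _ (fun e he => h3 e (hout _ _ (hout _ _ he)))
        (free_of_subset ((hout _ _).trans (hout _ _)) hK) A B hAB
        (fun e he => (mem_filter.1 (hout _ _ he)).2) (fun e he => (mem_filter.1 he).2))
    rw [card_union_of_disjoint hAB] at h1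
    push_cast at h1
    norm_num at h1
    have h2 : (6 * (outside (outside H A) B).card : ℝ) ≤ 0.646278 * (Fintype.card V : ℝ) ^ 3 -
        0.11 * (A.card + B.card) * (Fintype.card V : ℝ) ^ 2 := by linarith
    have h4 : 0.825 * (Fintype.card V : ℝ) ≤ A.card + B.card →
        (54 * (outside (outside H A) B).card : ℝ) ≤ 5 * (Fintype.card V : ℝ) ^ 3 := by
      intro h
      have h5 := mul_le_mul_of_nonneg_right h hn2
      have e5 : 0.825 * (Fintype.card V : ℝ) * (Fintype.card V : ℝ) ^ 2 =
        0.825 * (Fintype.card V : ℝ) ^ 3 := by ring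
      rw [e5] at h5
      linarith
    refine ⟨h2, fun h => ⟨h4 h, fun hA hB => ?_⟩⟩
    have := h4 h
    rwa [hid H A hA, hid H B hB] at this

end Pool.Agent.Results.MP_f1799f_co.IndependentHalf
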