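import Pool.Agent.X141.K4.Bd
import Pool.Agent.X141.K4.FinalA
import Pool.Agent.X8.K4.MSFin

/-!
# Turán's `(3,4)`-problem: uncovered pairs, strong colourings by at most 38 colours, Lagrangians

Let `H` be a `K_4^3`-free 3-graph, `w` non-negative weights of the vertices with sum `W`,
`L = ∑_e ∏_{v ∈ e} w v`, and let `U` be the sum of `w x * w y` over all ordered pairs `(x, y)` of
vertices which are equal or in no common edge. Then, for `0 ≤ t ≤ 1/38`,

`U ≥ t W²` implies `6 L ≤ (0.55756 - 3 t² + (22/9) t³) W³`.

So `L ≤ (5/54) W³` if `U ≥ W²/38`, and Turán's bound `|H| ≤ (5/54) n³` holds for all `K_4^3`-free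
3-graphs in which at least `n²/38` ordered pairs of vertices are equal or in no common edge
(2.64 percent of all pairs).

A strong colouring of a 3-graph gives three different colours to the three vertices of each edge.
If `H` has a strong colouring by `k ≥ 3` colours, then `6 L ≤ (0.55756 - (27 k - 22) / (9 k³)) W³`,
so `L ≤ (5/54) W³` if `k ≤ 38`. In particular Turán's bound holds for all `K_4^3`-free 3-graphs with
a strong colouring by at most 38 colours, and the Lagrangian of every `K_4^3`-free 3-graph on at most
38 vertices is at most `5/54`. (Turán's conjecture is this without the bound on the number of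
vertices.)

Outline. Let `A` be a heaviest colour class. No edge has two vertices in one class, so the 3-graph
stays `K_4^3`-free if all triples with two vertices in one of the other classes and one vertex in
`A` are added, and if Turán's construction is inserted in `A`. The new 3-graph satisfies the bound
`0.55756` for all `K_4^3`-free 3-graphs, which was proved before; and the number of new triples is at
least `(27 k - 22) / (9 k³) n³ / 6`. For uncovered pairs: along the line of weights which exchanges
the weights of two vertices `x`, `y` in no common edge, `L` is linear and `U` is constant plus a linear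
function, so a linear combination of `6 L` and `W U` is maximal if all vertices of positive weight are
pairwise in common edges; then `U` is the sum of the squares, and blow-ups with single vertices as
classes give the bound.
-/

set_option autoImplicit false
open Finset

namespace Pool.Agent.Results.MP_f1799f_co.StrongColourings

/-- The 3-graph `H` has no four vertices spanning all four triples. -/
def K43Free {V : Type} (H : Finset (Finset V)) : Prop :=
  ∀ S : Finset V, S.card = 4 → ∃ T ⊆ S, T.card = 3 ∧ T ∉ H

/-- The colouring `c` of the vertices with `k` colours gives different colours to different vertices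
of an edge. -/
def StrongColouring {V : Type} (H : Finset (Finset V)) {k : ℕ} (c : V → Fin k) : Prop :=
  ∀ e ∈ H, ∀ x ∈ e, ∀ y ∈ e, c x = c y → x = y

open scoped Classical in
/-- The ordered pairs of vertices which are equal or in no common edge of `H`. -/
noncomputable def uncovered {V : Type} [Fintype V] (H : Finset (Finset V)) : Finset (V × V) :=
  univ.filter fun p => p.1 = p.2 ∨ ∀ e ∈ H, ¬ (p.1 ∈ e ∧ p.2 ∈ e)

/-- Let `H` be a `K_4^3`-free 3-graph on the finite vertex set `V`. (1): the bound for weights if the
uncovered pairs have weight at least `t W²`, `0 ≤ t ≤ 1/38`. (2), (3): Turán's bound for weights and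
for the number of edges if the uncovered pairs have weight at least `W²/38`. (4): the two bounds for
weights and for the number of colours `k` of a strong colouring. (5): Turán's bound for the number of
edges if `k ≤ 38`. (6): Turán's bound for weights if `H` has at most 38 vertices. -/
theorem result (V : Type) [Fintype V] (H : Finset (Finset V)) (h3 : ∀ e ∈ H, e.card = 3)
    (hK : K43Free H) :
    (∀ w : V → ℝ, (∀ v, 0 ≤ w v) → ∀ t : ℝ, 0 ≤ t → t ≤ 1 / 38 →
      t * (∑ v, w v) ^ 2 ≤ ∑ p ∈ uncovered H, w p.1 * w p.2 →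
      6 * ∑ e ∈ H, ∏ v ∈ e, w v ≤
        (0.55756 - 3 * t ^ 2 + 22 / 9 * t ^ 3) * (∑ v, w v) ^ 3) ∧
    (∀ w : V → ℝ, (∀ v, 0 ≤ w v) → (∑ v, w v) ^ 2 ≤ 38 * ∑ p ∈ uncovered H, w p.1 * w p.2 →
      54 * ∑ e ∈ H, ∏ v ∈ e, w v ≤ 5 * (∑ v, w v) ^ 3) ∧
    (Fintype.card V ^ 2 ≤ 38 * (uncovered H).card → 54 * H.card ≤ 5 * Fintype.card V ^ 3) ∧
    (∀ w : V → ℝ, (∀ v, 0 ≤ w v) → ∀ (k : ℕ) (c : V → Fin k), StrongColouring H c →
      (3 ≤ k → 6 * ∑ e ∈ H, ∏ v ∈ e, w v ≤
        (0.55756 - (27 * k - 22) / (9 * k ^ 3)) * (∑ v, w v) ^ 3) ∧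
      (k ≤ 38 → 54 * ∑ e ∈ H, ∏ v ∈ e, w v ≤ 5 * (∑ v, w v) ^ 3)) ∧
    (∀ (k : ℕ) (c : V → Fin k), k ≤ 38 → StrongColouring H c →
      54 * H.card ≤ 5 * Fintype.card V ^ 3) ∧
    (Fintype.card V ≤ 38 → ∀ w : V → ℝ, (∀ v, 0 ≤ w v) →
      54 * ∑ e ∈ H, ∏ v ∈ e, w v ≤ 5 * (∑ v, w v) ^ 3) := by
  have hF : Pool.Agent.X141.K4.Free H := hK
  have hUn : uncovered H = Pool.Agent.X8.K4.Pairs H := by
    apply Finset.ext
    intro p
    unfold uncovered Pool.Agent.X8.K4.Pairs
    simp only [mem_filter]
  refine ⟨fun w hw t ht ht1 hU => ?_, fun w hw hU => ?_, fun hU => ?_,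
    fun w hw k c hc => ⟨fun hk => ?_, fun hk => ?_⟩, fun k c hk hc => ?_, fun hV w hw => ?_⟩
  · rw [hUn] at hU
    exact Pool.Agent.X8.K4.edges_t Pool.Agent.X141.K4.bd h3 hF w hw ht ht1 hU
  · rw [hUn] at hU
    exact Pool.Agent.X8.K4.edges_turan Pool.Agent.X141.K4.bd h3 hF w hw hU
  · rw [hUn] at hU
    exact Pool.Agent.X8.K4.edges_card Pool.Agent.X141.K4.bd h3 hF hU
  · exact Pool.Agent.X141.K4.classes Pool.Agent.X141.K4.bd h3 hF hk c hc w hw
  · exact Pool.Agent.X141.K4.finalW Pool.Agent.X141.K4.bd h3 hF hk c hc w hw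
  · exact Pool.Agent.X141.K4.finalC Pool.Agent.X141.K4.bd h3 hF hk c hc
  · exact Pool.Agent.X141.K4.finalL Pool.Agent.X141.K4.bd h3 hF hV w hw

end Pool.Agent.Results.MP_f1799f_co.StrongColourings
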